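import Mathlib

set_option autoImplicit false

/-!
# A Kirchberger-type theorem for separation of compact sets by small spheres
-/

namespace Pool.Agent.Results.MP_f10258_co.KirchbergerCompact

open Metric Filter Topology
open scoped RealInnerProductSpace

/-- The sphere with centre `c` and radius `r` strictly separates `X` and `Y`. -/
def StrictlySeparates {d : ℕ} (c : EuclideanSpace ℝ (Fin d)) (r : ℝ)
    (X Y : Set (EuclideanSpace ℝ (Fin d))) : Prop :=
  Disjoint X (sphere c r) ∧ Disjoint Y (sphere c r) ∧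
    ((X ⊆ ball c r ∧ Y ⊆ (closedBall c r)ᶜ) ∨ (Y ⊆ ball c r ∧ X ⊆ (closedBall c r)ᶜ))

/-- `(X, Y)` is small-sphere separable. -/
def SmallSphereSeparable {d : ℕ} (X Y : Set (EuclideanSpace ℝ (Fin d))) : Prop :=
  ∃ (c : EuclideanSpace ℝ (Fin d)) (r : ℝ), 0 < r ∧ r ≤ 1 ∧ StrictlySeparates c r X Y ∧
    X ⊆ ball c r

section

variable {d : ℕ}

lemma sss_of {X Y : Set (EuclideanSpace ℝ (Fin d))} {c : EuclideanSpace ℝ (Fin d)} {r : ℝ}
    (hr : 0 < r) (hr1 : r ≤ 1) (hX : X ⊆ ball c r) (hY : Y ⊆ (closedBall c r)ᶜ) :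
    SmallSphereSeparable X Y := by
  refine ⟨c, r, hr, hr1, ⟨?_, ?_, Or.inl ⟨hX, hY⟩⟩, hX⟩
  · rw [Set.disjoint_left]
    intro x hx hs
    have h1 := hX hx
    rw [mem_ball] at h1
    rw [mem_sphere] at hs
    linarith
  · rw [Set.disjoint_left]
    intro y hy hs
    exact hY hy (sphere_subset_closedBall hs)

/-- a far away unit sphere -/
lemma far (hd : 1 ≤ d) {Y : Set (EuclideanSpace ℝ (Fin d))} (hY : Bornology.IsBounded Y) :
    ∃ (c : EuclideanSpace ℝ (Fin d)) (r : ℝ), 0 < r ∧ r ≤ 1 ∧ Y ⊆ (closedBall c r)ᶜ := by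
  obtain ⟨R, hR⟩ := hY.subset_closedBall 0
  refine ⟨EuclideanSpace.single ⟨0, hd⟩ (|R| + 2), 1, one_pos, le_rfl, fun y hy h => ?_⟩
  have h1 := hR hy
  rw [mem_closedBall, dist_zero_right] at h1
  rw [mem_closedBall, dist_eq_norm] at h
  have h2 : ‖(EuclideanSpace.single ⟨0, hd⟩ (|R| + 2) : EuclideanSpace ℝ (Fin d))‖ = |R| + 2 := by
    rw [PiLp.norm_single, Real.norm_eq_abs, abs_of_pos (by positivity)]
  have h3 := norm_sub_norm_le
    (EuclideanSpace.single ⟨0, hd⟩ (|R| + 2) : EuclideanSpace ℝ (Fin d)) y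
  rw [norm_sub_rev] at h3
  have := le_abs_self R
  linarith

lemma sss_iff (hd : 1 ≤ d) {X Y : Set (EuclideanSpace ℝ (Fin d))}
    (hY : Bornology.IsBounded Y) :
    SmallSphereSeparable X Y ↔ ∃ (c : EuclideanSpace ℝ (Fin d)) (r : ℝ), 0 < r ∧ r ≤ 1 ∧
      X ⊆ ball c r ∧ Y ⊆ (closedBall c r)ᶜ := by
  constructor
  · rintro ⟨c, r, hr, hr1, ⟨-, -, h⟩, hX⟩
    rcases h with ⟨h1, h2⟩ | ⟨h1, h2⟩
    · exact ⟨c, r, hr, hr1, h1, h2⟩
    · obtain ⟨c', r', h3, h4, h5⟩ := far hd hY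
      refine ⟨c', r', h3, h4, ?_, h5⟩
      intro x hx
      exact absurd (ball_subset_closedBall (hX hx)) (h2 hx)
  · rintro ⟨c, r, hr, hr1, h1, h2⟩
    exact sss_of hr hr1 h1 h2

/-- the affine condition attached to a labelled point -/
noncomputable def hh (z : EuclideanSpace ℝ (Fin d) × ℝ) (p : EuclideanSpace ℝ (Fin d) × ℝ) : ℝ :=
  z.2 * (‖z.1‖ ^ 2 - 2 * ⟪z.1, p.1⟫ + p.2)

/-- the convex set of the parameters of the spheres of radius at most one -/
def KK (d : ℕ) : Set (EuclideanSpace ℝ (Fin d) × ℝ) := {p | ‖p.1‖ ^ 2 - 1 ≤ p.2}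

lemma convex_KK : Convex ℝ (KK d) := by
  intro p hp q hq a b ha hb hab
  simp only [KK, Set.mem_ofPred_eq, Prod.fst_add, Prod.smul_fst, Prod.snd_add, Prod.smul_snd,
    smul_eq_mul] at hp hq ⊢
  have h1 : ‖a • p.1 + b • q.1‖ ^ 2 ≤ a * ‖p.1‖ ^ 2 + b * ‖q.1‖ ^ 2 := by
    rw [norm_add_sq_real, norm_smul, norm_smul, inner_smul_left, inner_smul_right,
      Real.norm_of_nonneg ha, Real.norm_of_nonneg hb]
    simp only [RCLike.conj_to_real]
    have h2 : 2 * ⟪p.1, q.1⟫ ≤ ‖p.1‖ ^ 2 + ‖q.1‖ ^ 2 := by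
      have := norm_sub_sq_real p.1 q.1
      nlinarith [sq_nonneg ‖p.1 - q.1‖]
    have hb' : b = 1 - a := by linarith
    subst hb'
    nlinarith [mul_nonneg ha hb]
  nlinarith

lemma closed_KK : IsClosed (KK d) := by
  apply isClosed_le <;> fun_prop

lemma cont_hh : Continuous fun q : (EuclideanSpace ℝ (Fin d) × ℝ) ×
    (EuclideanSpace ℝ (Fin d) × ℝ) => hh q.1 q.2 := by
  unfold hh
  fun_prop

lemma convex_hh (z : EuclideanSpace ℝ (Fin d) × ℝ) (t : ℝ) : Convex ℝ {p | hh z p ≤ t} := by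
  intro p hp q hq a b ha hb hab
  simp only [hh, Set.mem_ofPred_eq, Prod.fst_add, Prod.smul_fst, Prod.snd_add, Prod.smul_snd,
    smul_eq_mul, inner_add_right, inner_smul_right] at hp hq ⊢
  have h1 : z.2 * (‖z.1‖ ^ 2 - 2 * (a * ⟪z.1, p.1⟫ + b * ⟪z.1, q.1⟫) + (a * p.2 + b * q.2)) =
      a * (z.2 * (‖z.1‖ ^ 2 - 2 * ⟪z.1, p.1⟫ + p.2)) +
      b * (z.2 * (‖z.1‖ ^ 2 - 2 * ⟪z.1, q.1⟫ + q.2)) := by
    have : b = 1 - a := by linarith
    subst this
    ring
  rw [h1]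
  have : t = a * t + b * t := by rw [← add_mul, hab, one_mul]
  rw [this]
  exact add_le_add (mul_le_mul_of_nonneg_left hp ha) (mul_le_mul_of_nonneg_left hq hb)

lemma inside_iff (x c : EuclideanSpace ℝ (Fin d)) {r : ℝ} (hr : 0 < r) :
    x ∈ ball c r ↔ hh (x, 1) (c, ‖c‖ ^ 2 - r ^ 2) < 0 := by
  rw [mem_ball, dist_eq_norm, ← pow_lt_pow_iff_left₀ (norm_nonneg _) hr.le (two_ne_zero),
    norm_sub_sq_real]
  simp only [hh]
  constructor <;> intro h <;> linarith

lemma outside_iff (x c : EuclideanSpace ℝ (Fin d)) {r : ℝ} (hr : 0 < r) :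
    x ∈ (closedBall c r)ᶜ ↔ hh (x, -1) (c, ‖c‖ ^ 2 - r ^ 2) < 0 := by
  rw [Set.mem_compl_iff, mem_closedBall, dist_eq_norm, not_le,
    ← pow_lt_pow_iff_left₀ hr.le (norm_nonneg _) (two_ne_zero), norm_sub_sq_real]
  simp only [hh]
  constructor <;> intro h <;> linarith

/-- the labelled points -/
def ZZ (A B : Set (EuclideanSpace ℝ (Fin d))) : Set (EuclideanSpace ℝ (Fin d) × ℝ) :=
  (A ×ˢ {1}) ∪ (B ×ˢ {-1})

lemma compact_ZZ {A B : Set (EuclideanSpace ℝ (Fin d))} (hA : IsCompact A) (hB : IsCompact B) :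
    IsCompact (ZZ A B) :=
  (hA.prod isCompact_singleton).union (hB.prod isCompact_singleton)

/-- A uniform margin. -/
lemma margin {Z : Set (EuclideanSpace ℝ (Fin d) × ℝ)} (hZ : IsCompact Z) (N : ℕ)
    (h : ∀ w : Fin N → EuclideanSpace ℝ (Fin d) × ℝ, (∀ i, w i ∈ Z) →
      ∃ p ∈ KK d, ∀ i, hh (w i) p < 0) :
    ∃ δ : ℝ, 0 < δ ∧ ∀ w : Fin N → EuclideanSpace ℝ (Fin d) × ℝ, (∀ i, w i ∈ Z) →
      ∃ p ∈ KK d, ∀ i, hh (w i) p ≤ -δ := by
  by_contra hcon
  push Not at hcon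
  choose w hwZ hw using fun n : ℕ => hcon (1 / ((n : ℝ) + 1)) (by positivity)
  have hcomp : IsCompact (Set.univ.pi fun _ : Fin N => Z) := isCompact_univ_pi fun _ => hZ
  obtain ⟨w0, hw0, φ, hφ, hlim⟩ := hcomp.tendsto_subseq (x := w) fun n i _ => hwZ n i
  obtain ⟨p, hpK, hp⟩ := h w0 fun i => hw0 i (Set.mem_univ i)
  have h1 : ∀ i, ∀ᶠ n in atTop, hh (w (φ n) i) p < hh (w0 i) p / 2 := by
    intro i
    have h2 : Tendsto (fun n => hh (w (φ n) i) p) atTop (𝓝 (hh (w0 i) p)) := by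
      have h3 : Tendsto (fun n => w (φ n) i) atTop (𝓝 (w0 i)) := (tendsto_pi_nhds.1 hlim) i
      have h4 : Continuous fun z => hh z p := cont_hh.comp (Continuous.prodMk_left p)
      exact (h4.tendsto _).comp h3
    exact h2.eventually (gt_mem_nhds (by linarith [hp i]))
  have h5 : ∀ i, ∀ᶠ n : ℕ in atTop, hh (w0 i) p / 2 ≤ -(1 / ((φ n : ℝ) + 1)) := by
    intro i
    have h6 : Tendsto (fun n : ℕ => -(1 / ((φ n : ℝ) + 1))) atTop (𝓝 (-0)) := by
      apply Tendsto.neg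
      exact (tendsto_one_div_add_atTop_nhds_zero_nat).comp hφ.tendsto_atTop
    rw [neg_zero] at h6
    exact (h6.eventually (lt_mem_nhds (by linarith [hp i]))).mono fun n hn => hn.le
  have h7 : ∀ᶠ n in atTop, ∀ i, hh (w (φ n) i) p ≤ -(1 / ((φ n : ℝ) + 1)) := by
    rw [eventually_all]
    intro i
    filter_upwards [h1 i, h5 i] with n h8 h9
    linarith
  obtain ⟨n, hn⟩ := h7.exists
  obtain ⟨i, hi⟩ := hw (φ n) p hpK
  exact absurd (hn i) (not_le.2 hi)

lemma bounded_K0 (x0 : EuclideanSpace ℝ (Fin d)) {δ : ℝ} (hδ : 0 < δ) :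
    IsCompact (KK d ∩ {p | hh (x0, 1) p ≤ -δ}) := by
  have hcl : IsClosed (KK d ∩ {p | hh (x0, 1) p ≤ -δ}) := by
    refine closed_KK.inter (isClosed_le ?_ continuous_const)
    exact cont_hh.comp (Continuous.prodMk_right (x0, 1))
  have hsub : KK d ∩ {p | hh (x0, 1) p ≤ -δ} ⊆
      closedBall x0 1 ×ˢ Set.Icc (-1) (2 * ‖x0‖ * (‖x0‖ + 1)) := by
    rintro ⟨c, s⟩ ⟨h1, h2⟩
    simp only [KK, Set.mem_ofPred_eq, hh, one_mul] at h1 h2
    have h3 : ‖c - x0‖ ≤ 1 := by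
      apply le_of_pow_le_pow_left₀ (two_ne_zero) zero_le_one
      rw [norm_sub_sq_real, real_inner_comm]
      linarith
    refine ⟨by rwa [mem_closedBall, dist_eq_norm], ?_, ?_⟩
    · nlinarith [sq_nonneg ‖c‖]
    · have h4 : ⟪x0, c⟫ ≤ ‖x0‖ * ‖c‖ := real_inner_le_norm _ _
      have h5 : ‖c‖ ≤ ‖x0‖ + 1 := by
        have := norm_sub_norm_le c x0
        linarith
      have h6 : ‖x0‖ * ‖c‖ ≤ ‖x0‖ * (‖x0‖ + 1) := mul_le_mul_of_nonneg_left h5 (norm_nonneg _)
      simp only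
      nlinarith [sq_nonneg ‖x0‖]
  exact ((isCompact_closedBall x0 1).prod isCompact_Icc).of_isClosed_subset hcl hsub

/-- The Helly step. -/
lemma helly_step {Z : Set (EuclideanSpace ℝ (Fin d) × ℝ)} {δ : ℝ} (hδ : 0 < δ)
    (h : ∀ w : Fin (d + 2) → EuclideanSpace ℝ (Fin d) × ℝ, (∀ i, w i ∈ Z) →
      ∃ p ∈ KK d, ∀ i, hh (w i) p ≤ -δ) (x0 : EuclideanSpace ℝ (Fin d)) (hx0 : (x0, 1) ∈ Z) :
    ∃ p ∈ KK d, ∀ z ∈ Z, hh z p ≤ -δ := by
  classical
  -- finite version
  have hfin : ∀ s : Finset (EuclideanSpace ℝ (Fin d) × ℝ), (∀ z ∈ s, z ∈ Z) →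
      ((⋂ z ∈ s, (KK d ∩ {p | hh z p ≤ -δ}))).Nonempty := by
    intro s hs
    apply Convex.helly_theorem' (𝕜 := ℝ)
    · intro z _
      exact convex_KK.inter (convex_hh z _)
    · intro I hI hcard
      have hfr : Module.finrank ℝ (EuclideanSpace ℝ (Fin d) × ℝ) = d + 1 := by
        simp
      rw [hfr] at hcard
      rcases I.eq_empty_or_nonempty with rfl | ⟨z0, hz0⟩
      · simp
      · let e := I.equivFin
        let w : Fin (d + 2) → EuclideanSpace ℝ (Fin d) × ℝ := fun i =>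
          if hi : i.val < I.card then (e.symm ⟨i.val, hi⟩ : EuclideanSpace ℝ (Fin d) × ℝ) else z0
        obtain ⟨p, hpK, hp⟩ := h w (by
          intro i
          simp only [w]
          split_ifs with hi
          · exact hs _ (hI (e.symm ⟨i.val, hi⟩).2)
          · exact hs _ (hI hz0))
        refine ⟨p, ?_⟩
        simp only [Set.mem_iInter]
        intro z hz
        refine ⟨hpK, ?_⟩
        have h1 : (e ⟨z, hz⟩).val < I.card := (e ⟨z, hz⟩).2
        have h2 := hp ⟨(e ⟨z, hz⟩).val, by omega⟩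
        have h3 : w ⟨(e ⟨z, hz⟩).val, by omega⟩ = z := by
          simp only [w]
          rw [dif_pos h1]
          simp
        rw [h3] at h2
        exact h2
  have hK0 := bounded_K0 x0 hδ
  have h2 : ((KK d ∩ {p | hh (x0, 1) p ≤ -δ}) ∩ ⋂ z : Z, {p | hh z p ≤ -δ}).Nonempty := by
    apply hK0.inter_iInter_nonempty
    · intro z
      exact isClosed_le (cont_hh.comp (Continuous.prodMk_right _)) continuous_const
    · intro u
      obtain ⟨p, hp⟩ := hfin (insert (x0, 1) (u.image Subtype.val)) (by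
        intro z hz
        rcases Finset.mem_insert.1 hz with rfl | hz
        · exact hx0
        · obtain ⟨y, -, rfl⟩ := Finset.mem_image.1 hz
          exact y.2)
      simp only [Set.mem_iInter] at hp
      refine ⟨p, hp (x0, 1) (Finset.mem_insert_self _ _), ?_⟩
      simp only [Set.mem_iInter]
      intro z hz
      exact (hp z (Finset.mem_insert_of_mem (Finset.mem_image_of_mem _ hz))).2
  obtain ⟨p, hp1, hp2⟩ := h2
  refine ⟨p, hp1.1, fun z hz => ?_⟩
  rw [Set.mem_iInter] at hp2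
  exact hp2 ⟨z, hz⟩

end

/-- **Kirchberger-type theorem for small spheres, compact sets.** For compact `A, B` in
`d`-dimensional Euclidean space, `d ≥ 1`, the pair `(A, B)` is small-sphere separable if and only
if `(T ∩ A, T ∩ B)` is for every `T ⊆ A ∪ B` with at most `d + 2` points. -/
theorem result (d : ℕ) (hd : 1 ≤ d) (A B : Set (EuclideanSpace ℝ (Fin d))) (hA : IsCompact A)
    (hB : IsCompact B) :
    SmallSphereSeparable A B ↔
      ∀ T : Finset (EuclideanSpace ℝ (Fin d)), (T : Set (EuclideanSpace ℝ (Fin d))) ⊆ A ∪ B →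
        T.card ≤ d + 2 → SmallSphereSeparable (↑T ∩ A) (↑T ∩ B) := by
  classical
  constructor
  · intro h T _ _
    rw [sss_iff hd hB.isBounded] at h
    obtain ⟨c, r, hr, hr1, h1, h2⟩ := h
    exact sss_of hr hr1 (Set.inter_subset_right.trans h1) (Set.inter_subset_right.trans h2)
  · intro h
    rw [sss_iff hd hB.isBounded]
    rcases A.eq_empty_or_nonempty with rfl | ⟨x0, hx0⟩
    · obtain ⟨c, r, hr, hr1, h1⟩ := far hd hB.isBounded
      exact ⟨c, r, hr, hr1, Set.empty_subset _, h1⟩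
    · have key : ∀ w : Fin (d + 2) → EuclideanSpace ℝ (Fin d) × ℝ, (∀ i, w i ∈ ZZ A B) →
          ∃ p ∈ KK d, ∀ i, hh (w i) p < 0 := by
        intro w hw
        set T : Finset (EuclideanSpace ℝ (Fin d)) := Finset.univ.image fun i => (w i).1 with hT
        have hTs : (T : Set (EuclideanSpace ℝ (Fin d))) ⊆ A ∪ B := by
          intro x hx
          rw [Finset.mem_coe, hT, Finset.mem_image] at hx
          obtain ⟨i, -, rfl⟩ := hx
          rcases hw i with ⟨h1, -⟩ | ⟨h1, -⟩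
          · exact Or.inl h1
          · exact Or.inr h1
        have hTc : T.card ≤ d + 2 := by
          refine Finset.card_image_le.trans ?_
          simp
        have h1 := h T hTs hTc
        rw [sss_iff hd (T.finite_toSet.subset Set.inter_subset_left).isBounded] at h1
        obtain ⟨c, r, hr, hr1, h2, h3⟩ := h1
        refine ⟨(c, ‖c‖ ^ 2 - r ^ 2), ?_, fun i => ?_⟩
        · simp only [KK, Set.mem_ofPred_eq]
          nlinarith
        · have hi : (w i).1 ∈ (T : Set (EuclideanSpace ℝ (Fin d))) := by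
            rw [Finset.mem_coe, hT]
            exact Finset.mem_image_of_mem _ (Finset.mem_univ i)
          rcases hw i with ⟨h4, h5⟩ | ⟨h4, h5⟩
          · have h6 := (inside_iff _ c hr).1 (h2 ⟨hi, h4⟩)
            rw [Set.mem_singleton_iff] at h5
            rwa [← h5] at h6
          · have h6 := (outside_iff _ c hr).1 (h3 ⟨hi, h4⟩)
            rw [Set.mem_singleton_iff] at h5
            rwa [← h5] at h6
      obtain ⟨δ, hδ, hmar⟩ := margin (compact_ZZ hA hB) (d + 2) key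
      obtain ⟨⟨c, s⟩, hpK, hp⟩ := helly_step hδ hmar x0 (Or.inl ⟨hx0, rfl⟩)
      have hx := hp (x0, 1) (Or.inl ⟨hx0, rfl⟩)
      simp only [KK, Set.mem_ofPred_eq] at hpK
      have hpos : 0 < ‖c‖ ^ 2 - s := by
        simp only [hh, one_mul] at hx
        have h1 := norm_sub_sq_real x0 c
        nlinarith [sq_nonneg ‖x0 - c‖]
      have hr : 0 < √(‖c‖ ^ 2 - s) := Real.sqrt_pos.2 hpos
      have hr1 : √(‖c‖ ^ 2 - s) ≤ 1 := by
        rw [Real.sqrt_le_one]
        linarith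
      have hs : ‖c‖ ^ 2 - √(‖c‖ ^ 2 - s) ^ 2 = s := by
        rw [Real.sq_sqrt hpos.le]
        ring
      refine ⟨c, √(‖c‖ ^ 2 - s), hr, hr1, ?_, ?_⟩
      · intro x hx
        rw [inside_iff x c hr, hs]
        have := hp (x, 1) (Or.inl ⟨hx, rfl⟩)
        linarith
      · intro x hx
        rw [outside_iff x c hr, hs]
        have := hp (x, -1) (Or.inr ⟨hx, rfl⟩)
        linarith

end Pool.Agent.Results.MP_f10258_co.KirchbergerCompact
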